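import Pool.Agent.Y884.SHM.Loc

/-!
# Strongly Haar meager sets in products of countable discrete abelian groups

Let `G = ∏ H n` be the product of a sequence of countable discrete abelian groups (an abelian Polish
group, locally compact if and only if all but finitely many `H n` are finite). The following are
equivalent: (1) countable unions of strongly Haar meager subsets of `G` are strongly Haar meager;
(2) the union of any two Borel strongly Haar meager subsets is strongly Haar meager; (3) every Haar
meager subset is strongly Haar meager; (4) every compact subset of `G` lies in a locally compact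
subgroup of `G`; (5) all but finitely many of the groups `H n` are torsion groups.

So the answer to the question of Darji is negative, exactly for the products with infinitely many
factors which are not torsion groups; and the sufficient condition (4) known from the literature
is also necessary in this class.

Idea of (2) ⟹ (5). Grouping the factors we may assume that every `H n` has an element `e n` of
infinite order. Homomorphisms `h n : H n → ℚ` with `h n (e n) = 1` serve as heights. Every compact
set `K` is coded in the coordinates of a translate of `K`. The first set collects the elements of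
compact sets `K` with windows (finite progressions with difference `e i`, of length `i + 1`) in all
late coordinates, near the element, which are infinitely often of maximal height; the second one
the elements without windows in infinitely many coordinates.
For (5) ⟹ (1), (3): a compact product of finite subgroups is a witness for all the sets.
-/

set_option autoImplicit false

namespace Pool.Agent.Results.MP_056111_lc.DiscreteProducts

/-- `A` is strongly Haar meager: there are a Borel set `B ⊇ A` and a nonempty compact set `C`
such that `(B + g) ∩ C` is a meager subset of the space `C`, for every `g`. -/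
def StronglyHaarMeager {G : Type} [TopologicalSpace G] [AddCommGroup G] (A : Set G) : Prop :=
  ∃ B : Set G, @MeasurableSet G (borel G) B ∧ A ⊆ B ∧ ∃ C : Set G, IsCompact C ∧ C.Nonempty ∧
    ∀ g : G, IsMeagre {c : C | ∃ b ∈ B, (c : G) = b + g}

/-- `A` is Haar meager: there are a Borel set `B ⊇ A`, a nonempty compact metric space `K` and a
continuous map `f : K → G` such that `f⁻¹ (B + g)` is meager in `K`, for every `g`. -/
def HaarMeager {G : Type} [TopologicalSpace G] [AddCommGroup G] (A : Set G) : Prop :=
  ∃ B : Set G, @MeasurableSet G (borel G) B ∧ A ⊆ B ∧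
    ∃ (K : Type) (_ : MetricSpace K) (_ : CompactSpace K) (_ : Nonempty K) (f : K → G),
      Continuous f ∧ ∀ g : G, IsMeagre {x : K | ∃ b ∈ B, f x = b + g}

/-- `a` has infinite order. -/
def InfiniteOrder {A : Type} [AddCommGroup A] (a : A) : Prop := ∀ k : ℕ, 0 < k → k • a ≠ 0

/-- For every sequence of countable discrete abelian groups `H n` five properties of the product
are equivalent: (1) strongly Haar meager sets are closed under countable unions, (2) the union of
two Borel strongly Haar meager sets is strongly Haar meager, (3) Haar meager sets are strongly Haar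
meager, (4) compact sets lie in locally compact subgroups, (5) only finitely many `H n` have an
element of infinite order. In particular it is not true that countable unions of strongly Haar
meager subsets of abelian Polish groups are strongly Haar meager. -/
theorem result :
    (∀ (H : ℕ → Type) [∀ n, AddCommGroup (H n)] [∀ n, Countable (H n)]
      [∀ n, TopologicalSpace (H n)] [∀ n, DiscreteTopology (H n)],
      List.TFAE [
        ∀ A : ℕ → Set (∀ n, H n), (∀ k, StronglyHaarMeager (A k)) →
          StronglyHaarMeager (⋃ k, A k),
        ∀ A₀ A₁ : Set (∀ n, H n), @MeasurableSet (∀ n, H n) (borel (∀ n, H n)) A₀ →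
          @MeasurableSet (∀ n, H n) (borel (∀ n, H n)) A₁ → StronglyHaarMeager A₀ →
          StronglyHaarMeager A₁ → StronglyHaarMeager (A₀ ∪ A₁),
        ∀ A : Set (∀ n, H n), HaarMeager A → StronglyHaarMeager A,
        ∀ K : Set (∀ n, H n), IsCompact K →
          ∃ L : AddSubgroup (∀ n, H n), LocallyCompactSpace L ∧ K ⊆ L,
        {n | ∃ a : H n, InfiniteOrder a}.Finite]) ∧
    ¬ ∀ (G : Type) [AddCommGroup G] [TopologicalSpace G] [IsTopologicalAddGroup G]
        [PolishSpace G] (A : ℕ → Set G),
        (∀ n, StronglyHaarMeager (A n)) → StronglyHaarMeager (⋃ n, A n) := by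
  have main : ∀ (H : ℕ → Type) [∀ n, AddCommGroup (H n)] [∀ n, Countable (H n)]
      [∀ n, TopologicalSpace (H n)] [∀ n, DiscreteTopology (H n)],
      List.TFAE [
        ∀ A : ℕ → Set (∀ n, H n), (∀ k, StronglyHaarMeager (A k)) →
          StronglyHaarMeager (⋃ k, A k),
        ∀ A₀ A₁ : Set (∀ n, H n), @MeasurableSet (∀ n, H n) (borel (∀ n, H n)) A₀ →
          @MeasurableSet (∀ n, H n) (borel (∀ n, H n)) A₁ → StronglyHaarMeager A₀ →
          StronglyHaarMeager A₁ → StronglyHaarMeager (A₀ ∪ A₁),
        ∀ A : Set (∀ n, H n), HaarMeager A → StronglyHaarMeager A,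
        ∀ K : Set (∀ n, H n), IsCompact K →
          ∃ L : AddSubgroup (∀ n, H n), LocallyCompactSpace L ∧ K ⊆ L,
        {n | ∃ a : H n, InfiniteOrder a}.Finite] := by
    intro H _ _ _ _
    tfae_have 1 → 2
    | h, A₀, A₁, _, _, h0, h1 => by
      have h2 := h (fun n => if n = 0 then A₀ else A₁) (fun n => by
        by_cases hn : n = 0
        · rw [if_pos hn]; exact h0
        · rw [if_neg hn]; exact h1)
      have e : (⋃ n : ℕ, (if n = 0 then A₀ else A₁)) = A₀ ∪ A₁ := by
        ext w
        simp only [Set.mem_iUnion, Set.mem_union]
        constructor
        · rintro ⟨n, hn⟩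
          by_cases h0 : n = 0
          · rw [if_pos h0] at hn; exact Or.inl hn
          · rw [if_neg h0] at hn; exact Or.inr hn
        · rintro (hw | hw)
          · exact ⟨0, by rw [if_pos rfl]; exact hw⟩
          · exact ⟨1, by rw [if_neg one_ne_zero]; exact hw⟩
      rw [e] at h2
      exact h2
    tfae_have 2 → 5
    | h => by
      by_contra hinf
      obtain ⟨A₀, A₁, h1, h2, h3, h4, h5⟩ := Y884.SHM.neg_inf H hinf
      exact h5 (h A₀ A₁ h1 h2 h3 h4)
    tfae_have 5 → 1
    | h, A, hA => Y884.SHM.pos H h A fun k => Y884.SHM.shm_hm (hA k)
    tfae_have 5 → 3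
    | h, A, hA => by
      have h1 := Y884.SHM.pos H h (fun _ => A) fun _ => hA
      rwa [Set.iUnion_const] at h1
    tfae_have 3 → 5
    | h => by
      by_contra hinf
      obtain ⟨A₀, A₁, h1, h2, h3, h4, h5⟩ := Y884.SHM.neg_inf H hinf
      exact h5 (h _ (Y884.SHM.union_hm h3 h4))
    tfae_have 5 → 4
    | h, K, hK => Y884.SHM.loc_of_fin H h K hK
    tfae_have 4 → 5
    | h => Y884.SHM.fin_of_loc H h
    tfae_finish
  refine ⟨main, fun h => ?_⟩
  have h1 := ((main (fun _ => ℤ)).out 0 4).1 (h (ℕ → ℤ))
  refine Set.infinite_univ (h1.subset fun n _ => ⟨(1 : ℤ), fun k hk h0 => ?_⟩)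
  rw [nsmul_eq_mul, mul_one] at h0
  have : k = 0 := by exact_mod_cast h0
  omega

end Pool.Agent.Results.MP_056111_lc.DiscreteProducts
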